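import Pool.Agent.K1H76.HB.Stm

/-! Project HB: the difference of the two Chern connections. -/

set_option autoImplicit false

namespace Pool.Agent.K1H96.HB

open Matrix Complex Filter Topology Set Pool.Agent.K1H76.HB
open scoped ComplexOrder

/-- entrywise real differentiability -/
def Df (F : ℂ → M2) (z : ℂ) : Prop := ∀ i j, DifferentiableAt ℝ (fun w => F w i j) z

theorem dz_congr {f g : ℂ → ℂ} {z : ℂ} (h : f =ᶠ[𝓝 z] g) : dz f z = dz g z := by
  unfold dz; rw [h.fderiv_eq]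

theorem dz_add {f g : ℂ → ℂ} {z : ℂ} (hf : DifferentiableAt ℝ f z) (hg : DifferentiableAt ℝ g z) :
    dz (fun w => f w + g w) z = dz f z + dz g z := by
  unfold dz
  rw [fderiv_fun_add hf hg]
  simp only [_root_.add_apply]
  ring

theorem dz_mul {f g : ℂ → ℂ} {z : ℂ} (hf : DifferentiableAt ℝ f z) (hg : DifferentiableAt ℝ g z) :
    dz (fun w => f w * g w) z = dz f z * g z + f z * dz g z := by
  unfold dz
  rw [fderiv_fun_mul hf hg]
  simp only [_root_.add_apply, _root_.smul_apply, smul_eq_mul]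
  ring

theorem dz_const (c z : ℂ) : dz (fun _ => c) z = 0 := by
  unfold dz
  simp

theorem dz_conj {f : ℂ → ℂ} {z : ℂ} (hf : DifferentiableAt ℝ f z) :
    dz (fun w => star (f w)) z = star (db f z) := by
  have h1 : ∀ v, fderiv ℝ (fun w => star (f w)) z v = star (fderiv ℝ f z v) := by
    intro v
    have h2 := ((Complex.conjCLE.toContinuousLinearMap).hasFDerivAt.comp z hf.hasFDerivAt).fderiv
    have h3 : (fun w => star (f w)) = ((Complex.conjCLE.toContinuousLinearMap) ∘ f) := rfl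
    rw [h3, h2]
    rfl
  unfold dz db
  rw [h1, h1]
  have h5 : (starRingEnd ℂ) 2 = 2 := map_ofNat _ 2
  simp only [star_div₀, star_add, star_mul', Complex.star_def, Complex.conj_I, h5]
  ring

theorem dzM_congr {F G : ℂ → M2} {z : ℂ} (h : F =ᶠ[𝓝 z] G) : dzM F z = dzM G z := by
  ext i j
  simp only [dzM, Matrix.of_apply]
  exact dz_congr (h.mono fun w hw => by simp only; rw [hw])

theorem dzM_mul {F G : ℂ → M2} {z : ℂ} (hF : Df F z) (hG : Df G z) :
    dzM (fun w => F w * G w) z = dzM F z * G z + F z * dzM G z := by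
  ext i j
  simp only [dzM, Matrix.of_apply, Matrix.add_apply, Matrix.mul_apply, Fin.sum_univ_two]
  have h1 := dz_add ((hF i 0).fun_mul (hG 0 j)) ((hF i 1).fun_mul (hG 1 j))
  have h2 := dz_mul (hF i 0) (hG 0 j)
  have h3 := dz_mul (hF i 1) (hG 1 j)
  refine h1.trans ?_
  rw [h2, h3]
  ring

theorem dzM_const (A : M2) (z : ℂ) : dzM (fun _ => A) z = 0 := by
  ext i j
  simp only [dzM, Matrix.of_apply, Matrix.zero_apply]
  exact dz_const _ _

theorem Df.mul {F G : ℂ → M2} {z : ℂ} (hF : Df F z) (hG : Df G z) : Df (fun w => F w * G w) z := by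
  intro i j
  simp only [Matrix.mul_apply, Fin.sum_univ_two]
  exact ((hF i 0).mul (hG 0 j)).add ((hF i 1).mul (hG 1 j))

theorem Df.inv {F : ℂ → M2} {z : ℂ} (hF : Df F z) (h0 : (F z).det ≠ 0) :
    Df (fun w => (F w)⁻¹) z := by
  have hdet : DifferentiableAt ℝ (fun w => (F w).det) z := by
    simp only [Matrix.det_fin_two]
    exact ((hF 0 0).mul (hF 1 1)).sub ((hF 0 1).mul (hF 1 0))
  have hadj : ∀ i j, DifferentiableAt ℝ (fun w => (F w).adjugate i j) z := by
    intro i j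
    simp only [Matrix.adjugate_fin_two]
    fin_cases i <;> fin_cases j
    · exact hF 1 1
    · exact (hF 0 1).neg
    · exact (hF 1 0).neg
    · exact hF 0 0
  intro i j
  have : (fun w => (F w)⁻¹ i j) = fun w => ((F w).det)⁻¹ * (F w).adjugate i j := by
    ext w
    rw [Matrix.inv_def, Matrix.smul_apply, smul_eq_mul, Ring.inverse_eq_inv']
  rw [this]
  exact (hdet.inv h0).mul (hadj i j)

theorem t_CB : S_CB := by
  intro U h₁ h₂ hU hc1 hc2 hp1 hp2 z hz
  have hn : U ∈ 𝓝 z := hU.mem_nhds hz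
  have hd1 : Df h₁ z := fun i j => ((hc1 i j).contDiffAt hn).differentiableAt (by norm_num)
  have hd2 : Df h₂ z := fun i j => ((hc2 i j).contDiffAt hn).differentiableAt (by norm_num)
  have det1 : ∀ w ∈ U, IsUnit (h₁ w).det := fun w hw => ((hp1 w hw).isUnit).map Matrix.detMonoidHom
  have det2 : ∀ w ∈ U, IsUnit (h₂ w).det := fun w hw => ((hp2 w hw).isUnit).map Matrix.detMonoidHom
  have hdi : Df (fun w => (h₁ w)⁻¹) z := hd1.inv (det1 z hz).ne_zero
  have hdH : Df (fun w => (h₁ w)⁻¹ * h₂ w) z := hdi.mul hd2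
  -- the adjoint of `∂̄ H`
  have e1 : (dbM (fun w => (h₁ w)⁻¹ * h₂ w) z)ᴴ = dzM (fun w => ((h₁ w)⁻¹ * h₂ w)ᴴ) z := by
    ext i j
    simp only [Matrix.conjTranspose_apply, dbM, dzM, Matrix.of_apply]
    exact (dz_conj (hdH j i)).symm
  have e2 : dzM (fun w => ((h₁ w)⁻¹ * h₂ w)ᴴ) z = dzM (fun w => h₂ w * (h₁ w)⁻¹) z := by
    apply dzM_congr
    filter_upwards [hn] with w hw
    rw [Matrix.conjTranspose_mul, (hp2 w hw).isHermitian.eq, Matrix.conjTranspose_nonsing_inv,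
      (hp1 w hw).isHermitian.eq]
  have e3 := dzM_mul hd2 hdi
  have e4 : dzM h₁ z * (h₁ z)⁻¹ + h₁ z * dzM (fun w => (h₁ w)⁻¹) z = 0 := by
    rw [← dzM_mul hd1 hdi, ← dzM_const 1 z]
    apply dzM_congr
    filter_upwards [hn] with w hw
    exact Matrix.mul_nonsing_inv _ (det1 w hw)
  have i1 : (h₁ z)⁻¹ * h₁ z = 1 := Matrix.nonsing_inv_mul _ (det1 z hz)
  have i2 : (h₂ z)⁻¹ * h₂ z = 1 := Matrix.nonsing_inv_mul _ (det2 z hz)
  have e5 : dzM (fun w => (h₁ w)⁻¹) z = -((h₁ z)⁻¹ * dzM h₁ z * (h₁ z)⁻¹) := by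
    have := congrArg (fun A => (h₁ z)⁻¹ * A) e4
    simp only [mul_add, mul_zero, ← mul_assoc, i1, one_mul] at this
    exact eq_neg_of_add_eq_zero_right this
  rw [e1, e2, e3, e5]
  unfold conn
  calc (h₂ z)⁻¹ * dzM h₂ z - (h₁ z)⁻¹ * dzM h₁ z
      = (h₂ z)⁻¹ * dzM h₂ z * ((h₁ z)⁻¹ * h₁ z)
        - ((h₂ z)⁻¹ * h₂ z) * ((h₁ z)⁻¹ * dzM h₁ z) * ((h₁ z)⁻¹ * h₁ z) := by
        rw [i1, i2, mul_one, mul_one, one_mul]
    _ = _ := by noncomm_ring

end Pool.Agent.K1H96.HB
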